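import Mathlib
import Pool.Agent.H74.LipFree6

/-!
# No infinite-dimensional normed space embeds in a Lipschitz free `p`-space, `0 < p < 1`

Let `0 < p < 1` and let `M` be a metric space with base point `o`.  `PSpace o` is the vector space
`P(M)` with basis `δ(x)`, `x ≠ o`, `pNorm p` is the `p`-norm of the problem file, and
`LipFree p o` is the Lipschitz free `p`-space `F_p(M)`, the completion of `P(M)`.  We show that
every normed space that linearly embeds in `F_p(M)` is finite-dimensional.  For `M = c₀` this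
answers the question: no infinite-dimensional Banach space linearly embeds in `F_p(c₀)`.

The proof was found by helper50 and formalised by helper74.
-/

open Finset

namespace Pool.Agent.Results.MP_4dc88f_an.NoBanachSubspace

noncomputable section

variable {M : Type*}

/-- `P(M)`: the real vector space with basis `δ(x)`, `x ∈ M`, `x ≠ o`. -/
abbrev PSpace (o : M) : Type _ := {x : M // x ≠ o} →₀ ℝ

open Classical in
/-- The element `δ(x)` of `P(M)`, with the convention `δ(o) = 0`. -/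
def delta (o x : M) : PSpace o := if h : x = o then 0 else Finsupp.single ⟨x, h⟩ 1

/-- The `p`-norm on `P(M)`: `‖μ‖_p` is the infimum of `(∑ |a_i|^p d(x_i, y_i)^p)^(1/p)` over all
representations `μ = ∑ a_i (δ(x_i) - δ(y_i))`. -/
def pNorm [MetricSpace M] (p : ℝ) {o : M} (μ : PSpace o) : ℝ :=
  sInf {s : ℝ | ∃ (n : ℕ) (a : Fin n → ℝ) (x y : Fin n → M),
    μ = ∑ i, a i • (delta o (x i) - delta o (y i)) ∧
    s = (∑ i, |a i| ^ p * dist (x i) (y i) ^ p) ^ (1 / p)}

/-- A copy of the vector space `P(M)`, to carry the metric `d(μ, ν) = ‖μ - ν‖_p ^ p` (see below);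
`p` is in the open interval `(0, 1)`. -/
def MetricP (_p : Set.Ioo (0 : ℝ) 1) (o : M) : Type _ := PSpace o

instance (p : Set.Ioo (0 : ℝ) 1) (o : M) : AddCommGroup (MetricP p o) :=
  (Finsupp.instAddCommGroup : AddCommGroup (PSpace o))

instance (p : Set.Ioo (0 : ℝ) 1) (o : M) : Module ℝ (MetricP p o) :=
  (Finsupp.module {x : M // x ≠ o} ℝ : Module ℝ (PSpace o))

/-- The identity map `MetricP p o = P(M)`. -/
def MetricP.vec {p : Set.Ioo (0 : ℝ) 1} {o : M} : MetricP p o ≃ₗ[ℝ] PSpace o :=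
  LinearEquiv.refl ℝ (PSpace o)

variable [MetricSpace M]

lemma pNorm_eq {p : ℝ} (hp0 : 0 < p) {o : M} (μ : PSpace o) :
    pNorm p μ = H74.LipFree.pcost p μ ^ (1 / p) := by
  have hne : {s : ℝ | ∃ (n : ℕ) (a : Fin n → ℝ) (x y : Fin n → M),
      μ = ∑ i, a i • (delta o (x i) - delta o (y i)) ∧
      s = (∑ i, |a i| ^ p * dist (x i) (y i) ^ p) ^ (1 / p)}.Nonempty := by
    obtain ⟨s, n, a, x, y, h1, h2⟩ := H74.LipFree.costSet_nonempty p μ
    exact ⟨_, n, a, x, y, h1, rfl⟩
  apply le_antisymm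
  · refine le_of_forall_gt_imp_ge_of_dense fun t ht => ?_
    have h0 : 0 ≤ H74.LipFree.pcost p μ ^ (1 / p) :=
      Real.rpow_nonneg (H74.LipFree.pcost_nonneg p μ) _
    have ht0 : 0 ≤ t := h0.trans ht.le
    have h1 : H74.LipFree.pcost p μ < t ^ p := by
      have := Real.rpow_lt_rpow h0 ht hp0
      rwa [← Real.rpow_mul (H74.LipFree.pcost_nonneg p μ), one_div_mul_cancel hp0.ne',
        Real.rpow_one] at this
    obtain ⟨n, a, x, y, h2, h3⟩ := H74.LipFree.exists_rep p μ (sub_pos.2 h1)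
    have h4 : pNorm p μ ≤ (∑ i, |a i| ^ p * dist (x i) (y i) ^ p) ^ (1 / p) := by
      refine csInf_le ⟨0, ?_⟩ ⟨n, a, x, y, h2, rfl⟩
      rintro s ⟨n, a, x, y, -, rfl⟩
      exact Real.rpow_nonneg (H74.LipFree.cost_nonneg _ _ _ _) _
    refine h4.trans ?_
    have h5 := Real.rpow_le_rpow (H74.LipFree.cost_nonneg _ _ _ _)
      (show ∑ i, |a i| ^ p * dist (x i) (y i) ^ p ≤ t ^ p by linarith)
      (show 0 ≤ 1 / p by positivity)
    rwa [← Real.rpow_mul ht0, mul_one_div_cancel hp0.ne', Real.rpow_one] at h5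
  · refine le_csInf hne ?_
    rintro s ⟨n, a, x, y, h1, rfl⟩
    exact Real.rpow_le_rpow (H74.LipFree.pcost_nonneg p μ) (H74.LipFree.pcost_le μ a x y h1)
      (by positivity)

lemma pNorm_rpow {p : ℝ} (hp0 : 0 < p) {o : M} (μ : PSpace o) :
    pNorm p μ ^ p = H74.LipFree.pcost p μ := by
  rw [pNorm_eq hp0, ← Real.rpow_mul (H74.LipFree.pcost_nonneg p μ), one_div_mul_cancel hp0.ne',
    Real.rpow_one]

/-- `P(M)` is a normed group, with group norm `‖μ‖ = (pNorm p μ) ^ p`. -/
instance (p : Set.Ioo (0 : ℝ) 1) (o : M) : NormedAddCommGroup (MetricP p o) :=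
  AddGroupNorm.toNormedAddCommGroup
    { toFun := fun μ => pNorm (p : ℝ) (MetricP.vec μ) ^ (p : ℝ)
      map_zero' := by
        rw [map_zero, pNorm_rpow p.2.1]
        exact H74.LipFree.pcost_zero _ o
      add_le' := fun μ ν => by
        rw [map_add, pNorm_rpow p.2.1, pNorm_rpow p.2.1, pNorm_rpow p.2.1]
        exact H74.LipFree.pcost_add_le _ _ _
      neg' := fun μ => by
        rw [map_neg, pNorm_rpow p.2.1, pNorm_rpow p.2.1]
        exact H74.LipFree.pcost_neg p.2.1 _
      eq_zero_of_map_eq_zero' := fun μ h => by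
        rw [pNorm_rpow p.2.1] at h
        have := H74.LipFree.pcost_eq_zero p.2.1 p.2.2.le _ h
        exact (LinearEquiv.map_eq_zero_iff _).1 this }

lemma norm_def (p : Set.Ioo (0 : ℝ) 1) (o : M) (μ : MetricP p o) :
    ‖μ‖ = pNorm (p : ℝ) (MetricP.vec μ) ^ (p : ℝ) := rfl

lemma norm_eq (p : Set.Ioo (0 : ℝ) 1) (o : M) (μ : MetricP p o) :
    ‖μ‖ = H74.LipFree.pcost (p : ℝ) (MetricP.vec μ) := pNorm_rpow p.2.1 _

lemma norm_smul_metricP (p : Set.Ioo (0 : ℝ) 1) (o : M) (t : ℝ) (μ : MetricP p o) :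
    ‖t • μ‖ = |t| ^ (p : ℝ) * ‖μ‖ := by
  rw [norm_eq, norm_eq, map_smul]; exact H74.LipFree.pcost_smul p.2.1 t _

/-- Multiplication by a real number is uniformly continuous on `P(M)`. -/
instance (p : Set.Ioo (0 : ℝ) 1) (o : M) : UniformContinuousConstSMul ℝ (MetricP p o) where
  uniformContinuous_const_smul c := by
    have : LipschitzWith (Real.toNNReal (|c| ^ (p : ℝ))) (fun μ : MetricP p o => c • μ) := by
      refine LipschitzWith.of_dist_le_mul fun μ ν => ?_
      rw [dist_eq_norm, dist_eq_norm, ← smul_sub, norm_smul_metricP,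
        Real.coe_toNNReal _ (by positivity)]
    exact this.uniformContinuous

/-- The Lipschitz free `p`-space `F_p(M)`: the completion of `P(M)`. -/
abbrev LipFree (p : Set.Ioo (0 : ℝ) 1) (o : M) : Type _ :=
  UniformSpace.Completion (MetricP p o)

/-- The `p`-norm on `F_p(M)`.  Here `‖z‖` is the continuous extension to the completion of the
group norm `(pNorm p μ) ^ p` of `P(M)`. -/
def quasiNorm {p : Set.Ioo (0 : ℝ) 1} {o : M} (z : LipFree p o) : ℝ := ‖z‖ ^ (1 / (p : ℝ))

/-- On `P(M)`, `quasiNorm` is `pNorm p`. -/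
lemma quasiNorm_coe {p : Set.Ioo (0 : ℝ) 1} {o : M} (μ : MetricP p o) :
    quasiNorm (μ : LipFree p o) = pNorm (p : ℝ) (MetricP.vec μ) := by
  rw [quasiNorm, UniformSpace.Completion.norm_coe, norm_eq, pNorm_eq p.2.1]

lemma norm_smul_lipFree (p : Set.Ioo (0 : ℝ) 1) (o : M) (t : ℝ) (z : LipFree p o) :
    ‖t • z‖ = |t| ^ (p : ℝ) * ‖z‖ := by
  induction z using UniformSpace.Completion.induction_on with
  | hp =>
    refine isClosed_eq ?_ ?_
    · exact continuous_norm.comp (continuous_const_smul t)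
    · exact continuous_const.mul continuous_norm
  | ih μ =>
    rw [← UniformSpace.Completion.coe_smul, UniformSpace.Completion.norm_coe,
      UniformSpace.Completion.norm_coe, norm_smul_metricP]

/-- The inclusion of `P(M)` in `F_p(M)`. -/
def incl (p : Set.Ioo (0 : ℝ) 1) (o : M) : PSpace o →ₗ[ℝ] LipFree p o where
  toFun μ := ((MetricP.vec.symm μ : MetricP p o) : UniformSpace.Completion (MetricP p o))
  map_add' μ ν := by rw [map_add, UniformSpace.Completion.coe_add]
  map_smul' t μ := by rw [map_smul, UniformSpace.Completion.coe_smul]; rfl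

lemma norm_incl (p : Set.Ioo (0 : ℝ) 1) (o : M) (μ : PSpace o) :
    ‖incl p o μ‖ = H74.LipFree.pcost (p : ℝ) μ := by
  change ‖((MetricP.vec.symm μ : MetricP p o) : UniformSpace.Completion (MetricP p o))‖ = _
  rw [UniformSpace.Completion.norm_coe, norm_eq, LinearEquiv.apply_symm_apply]

lemma dense_incl (p : Set.Ioo (0 : ℝ) 1) (o : M) (z : LipFree p o) (ε : ℝ) (hε : 0 < ε) :
    ∃ μ, ‖z - incl p o μ‖ ≤ ε := by
  obtain ⟨μ, hμ⟩ := (UniformSpace.Completion.denseRange_coe (α := MetricP p o)).exists_dist_lt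
    z hε
  rw [dist_eq_norm] at hμ
  exact ⟨MetricP.vec μ, hμ.le⟩

/-- **Every normed space that linearly embeds in the Lipschitz free `p`-space `F_p(M)` of a metric
space `M`, `0 < p < 1`, is finite-dimensional.** -/
theorem result (p : Set.Ioo (0 : ℝ) 1) {M : Type*} [MetricSpace M] (o : M)
    {X : Type*} [NormedAddCommGroup X] [NormedSpace ℝ X]
    (T : X →ₗ[ℝ] LipFree p o) (c C : ℝ) (hc : 0 < c)
    (hT : ∀ x : X, c * ‖x‖ ≤ quasiNorm (T x) ∧ quasiNorm (T x) ≤ C * ‖x‖) :
    FiniteDimensional ℝ X := by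
  have hp0 := p.2.1
  have hp1 := p.2.2
  have hq : ∀ z : LipFree p o, quasiNorm z ^ (p : ℝ) = ‖z‖ := fun z => by
    rw [quasiNorm, ← Real.rpow_mul (norm_nonneg z), one_div_mul_cancel hp0.ne', Real.rpow_one]
  refine H74.LipFree.main_abstract (p := (p : ℝ)) (o := o) hp0 hp1 (norm_smul_lipFree p o)
    (incl p o) (norm_incl p o) (dense_incl p o) T c |C| hc (abs_nonneg C)
    (fun x => ?_) (fun x => ?_)
  · rw [← hq]
    exact Real.rpow_le_rpow (by positivity) (hT x).1 hp0.le
  · rw [← hq]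
    refine Real.rpow_le_rpow (Real.rpow_nonneg (norm_nonneg _) _) ((hT x).2.trans ?_) hp0.le
    exact mul_le_mul_of_nonneg_right (le_abs_self C) (norm_nonneg x)

end

end Pool.Agent.Results.MP_4dc88f_an.NoBanachSubspace
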